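import Pool.Agent.H62.AchGen2

set_option autoImplicit false

namespace Pool.Agent.Results.MP_1e50ba_an.CantorSet

/-- The achievement set of the sequence `x n = 1 / 2 ^ n` for odd `n`, `x n = 1 / (2 ^ n + 1)`
for even `n` (`n ≥ 1`) is homeomorphic to the ternary Cantor set. -/
theorem result :
    Nonempty ({s : ℝ | ∃ A : Set ℕ, (∀ n ∈ A, 1 ≤ n) ∧
        s = ∑' n : ℕ, A.indicator
          (fun n : ℕ => if n % 2 = 1 then (1 : ℝ) / 2 ^ n else 1 / (2 ^ n + 1)) n} ≃ₜ
      cantorSet) :=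
  Pool.Agent.H62.AchGen.hypY.final

end Pool.Agent.Results.MP_1e50ba_an.CantorSet
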